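import Pool.Agent.W187.WP.Stmts3

/-! # WP-R2S: the shift term for functions of the same parity -/

set_option autoImplicit false

namespace Pool.Agent.W327.WP
open MeasureTheory Set Pool.Agent.W187.WP

theorem r2s : S_R2S := by
  intro s v w hs hv hw pv pw
  have hss : s * s = 1 := by rcases hs with rfl | rfl <;> norm_num
  have i1 : IntervalIntegrable (fun x => v x * w (x + 5 / 4)) volume (-1 : ℝ) (-1 / 4) :=
    Continuous.intervalIntegrable (by fun_prop) _ _
  have i2 : IntervalIntegrable (fun x => w x * v (x + 5 / 4)) volume (-1 : ℝ) (-1 / 4) :=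
    Continuous.intervalIntegrable (by fun_prop) _ _
  rw [intervalIntegral.integral_add i1 i2, two_mul]
  congr 1
  · have h1 := intervalIntegral.integral_comp_add_right (a := (-1 : ℝ)) (b := -1 / 4)
      (fun u : ℝ => w u * v (u - 5 / 4)) (5 / 4)
    rw [show (-1 : ℝ) + 5 / 4 = 1 / 4 by norm_num, show (-1 / 4 : ℝ) + 5 / 4 = 1 by norm_num] at h1
    rw [← h1]
    refine intervalIntegral.integral_congr fun x _ => ?_
    show v x * w (x + 5 / 4) = w (x + 5 / 4) * v (x + 5 / 4 - 5 / 4)
    rw [add_sub_cancel_right, mul_comm]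
  · have h1 := intervalIntegral.integral_comp_neg (a := (1 / 4 : ℝ)) (b := 1)
      (fun u : ℝ => w u * v (u + 5 / 4))
    rw [show (-(1 / 4) : ℝ) = -1 / 4 by norm_num] at h1
    rw [← h1]
    refine intervalIntegral.integral_congr fun x _ => ?_
    show w (-x) * v (-x + 5 / 4) = w x * v (x - 5 / 4)
    rw [show -x + 5 / 4 = -(x - 5 / 4) by ring, pw x, pv (x - 5 / 4)]
    linear_combination w x * v (x - 5 / 4) * hss

end Pool.Agent.W327.WP
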